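import Mathlib

open Polynomial

namespace Pool.Agent.Results.MP_9cbaed_nt.ExactOrder

lemma four_pow (r : ℕ) : (4 : ℕ) ^ r = (2 ^ r) ^ 2 := by
  rw [← pow_mul, mul_comm, pow_mul]; norm_num

section field

variable {K : Type*} [Field K] [CharP K 2]

/-- The two roots of `1 + x^q + x^(q+1)` whose ratio is a given primitive root of unity. -/
lemma exists_roots (r : ℕ) {δ : K} (hδ : IsPrimitiveRoot δ (4 ^ r + 2 ^ r + 1)) :
    ∃ a : K, a ^ (2 ^ r) + a ^ (2 ^ r + 1) = 1 ∧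
      (δ * a) ^ (2 ^ r) + (δ * a) ^ (2 ^ r + 1) = 1 := by
  have hq0 : 0 < 2 ^ r := by positivity
  have frob : ∀ x y : K, (x + y) ^ (2 ^ r) = x ^ (2 ^ r) + y ^ (2 ^ r) := by
    intro x y
    have : Fact (Nat.Prime 2) := ⟨Nat.prime_two⟩
    exact add_pow_char_pow x y 2 r
  have hN : 4 ^ r + 2 ^ r + 1 = (2 ^ r) ^ 2 + 2 ^ r + 1 := by rw [four_pow]
  rw [hN] at hδ
  generalize 2 ^ r = q at hq0 frob hδ ⊢
  have h1 : (1 : K) + δ ^ (q + 1) ≠ 0 := by
    intro h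
    have h2 : δ ^ (q + 1) = 1 := (CharTwo.add_eq_zero.1 h).symm
    have h3 := hδ.dvd_of_pow_eq_one _ h2
    have h4 := Nat.le_of_dvd (by omega) h3
    nlinarith
  have h2 : (1 : K) + δ ^ (q ^ 2 + q) ≠ 0 := by
    intro h
    have h2 : δ ^ (q ^ 2 + q) = 1 := (CharTwo.add_eq_zero.1 h).symm
    have h3 := hδ.dvd_of_pow_eq_one _ h2
    have h4 := Nat.le_of_dvd (by positivity) h3
    omega
  have hδN : δ ^ (q ^ 2) * δ ^ q * δ = 1 := by
    rw [← pow_add, ← pow_succ]; exact hδ.pow_eq_one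
  have haq : ((1 + δ ^ q) / (1 + δ ^ (q + 1))) ^ q =
      (1 + δ ^ (q ^ 2)) / (1 + δ ^ (q ^ 2 + q)) := by
    rw [div_pow, frob, frob, one_pow, ← pow_mul, ← pow_mul]
    congr 3 <;> ring
  have e2 : (2 : K) = 0 := by
    have := CharP.cast_eq_zero K 2
    exact_mod_cast this
  have e3 : δ ^ (q + 1) = δ ^ q * δ := pow_succ _ _
  have e4 : δ ^ (q ^ 2 + q) = δ ^ (q ^ 2) * δ ^ q := pow_add _ _ _
  rw [e3] at h1 haq
  rw [e4] at h2 haq
  refine ⟨(1 + δ ^ q) / (1 + δ ^ q * δ), ?_, ?_⟩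
  · rw [pow_succ, haq]
    generalize δ ^ (q ^ 2) = B at h2 hδN ⊢
    generalize δ ^ q = A at h1 h2 hδN ⊢
    field_simp
    linear_combination (1 - A) * hδN + (1 + B) * e2
  · rw [mul_pow, mul_pow, pow_succ ((1 + δ ^ q) / (1 + δ ^ q * δ)), haq, e3]
    generalize δ ^ (q ^ 2) = B at h2 hδN ⊢
    generalize δ ^ q = A at h1 h2 hδN ⊢
    have h3 : (1 : K) + A * B ≠ 0 := by rwa [mul_comm A B]
    have e5 : A * ((1 + B) / (1 + B * A)) + A * δ * ((1 + B) / (1 + B * A) * ((1 + A) /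
        (1 + A * δ))) = (A * (1 + B) * (1 + A * δ) + A * δ * (1 + B) * (1 + A)) /
          ((1 + B * A) * (1 + A * δ)) := by
      field_simp
    rw [e5, div_eq_one_iff_eq (mul_ne_zero h2 h1)]
    linear_combination (1 - A) * hδN + (A ^ 2 * δ * (1 + B)) * e2

end field

/-- The `N`-th roots of unity force `N ∣ e`. -/
lemma dvd_of_roots (r e : ℕ)
    (h : ∀ a : AlgebraicClosure (ZMod 2), a ^ (2 ^ r) + a ^ (2 ^ r + 1) = 1 → a ^ e = 1) :
    4 ^ r + 2 ^ r + 1 ∣ e := by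
  have : Fact (Nat.Prime 2) := ⟨Nat.prime_two⟩
  have hodd : ((4 ^ r + 2 ^ r + 1 : ℕ) : ZMod 2) ≠ 0 := by
    rw [Ne, ZMod.natCast_eq_zero_iff]
    rcases Nat.eq_zero_or_pos r with rfl | hr
    · norm_num
    · intro h2
      have h3 : 2 ∣ 4 ^ r + 2 ^ r := by
        apply dvd_add
        · exact dvd_pow (by norm_num) hr.ne'
        · exact dvd_pow_self 2 hr.ne'
      have h4 := (Nat.dvd_add_right h3).1 h2
      norm_num at h4
  have : NeZero ((4 ^ r + 2 ^ r + 1 : ℕ) : ZMod 2) := ⟨hodd⟩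
  obtain ⟨δ, hδ⟩ := HasEnoughRootsOfUnity.exists_primitiveRoot (AlgebraicClosure (ZMod 2))
    (4 ^ r + 2 ^ r + 1)
  obtain ⟨a, h1, h2⟩ := exists_roots r hδ
  have h3 := h a h1
  have h4 := h _ h2
  rw [mul_pow, h3, mul_one] at h4
  exact hδ.dvd_of_pow_eq_one e h4

lemma two_eq_zero' : (2 : (ZMod 2)[X]) = 0 := by
  have := CharP.cast_eq_zero (ZMod 2)[X] 2
  exact_mod_cast this

lemma frob_poly (r : ℕ) (x y : (ZMod 2)[X]) : (x + y) ^ (2 ^ r) = x ^ (2 ^ r) + y ^ (2 ^ r) := by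
  have : Fact (Nat.Prime 2) := ⟨Nat.prime_two⟩
  exact add_pow_char_pow x y 2 r

/-- `1 + X` is coprime to a polynomial not vanishing at `1`. -/
lemma coprime_one_add_X {g : (ZMod 2)[X]} (hg : g.eval 1 = 1) : IsCoprime (1 + X) g := by
  have : Fact (Nat.Prime 2) := ⟨Nat.prime_two⟩
  have h1 : (X - C 1 : (ZMod 2)[X]) ∣ g - C (g.eval 1) := X_sub_C_dvd_sub_C_eval
  rw [hg] at h1
  obtain ⟨k, hk⟩ := h1
  refine ⟨-k, 1, ?_⟩
  have h2 := two_eq_zero'
  simp only [map_one] at hk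
  linear_combination hk - k * h2

lemma one_add_X_dvd (N : ℕ) : (1 + X : (ZMod 2)[X]) ∣ 1 + X ^ N := by
  have h := sub_dvd_pow_sub_pow (X : (ZMod 2)[X]) 1 N
  have e : ∀ y : (ZMod 2)[X], y - 1 = 1 + y := by
    intro y; linear_combination -two_eq_zero'
  rw [one_pow, e, e] at h
  exact h

/-- The order of `f` and of its reciprocal, for every `r`. -/
theorem result (r : ℕ) :
    IsLeast {e : ℕ | 0 < e ∧
      (1 + X + X ^ (2 ^ r) + X ^ (2 ^ r + 2) : (ZMod 2)[X]) ∣ 1 + X ^ e} (4 ^ r + 2 ^ r + 1) ∧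
    IsLeast {e : ℕ | 0 < e ∧
      (1 + X ^ 2 + X ^ (2 ^ r + 1) + X ^ (2 ^ r + 2) : (ZMod 2)[X]) ∣ 1 + X ^ e}
      (4 ^ r + 2 ^ r + 1) := by
  have : Fact (Nat.Prime 2) := ⟨Nat.prime_two⟩
  have h2 := two_eq_zero'
  have hf : (1 + X + X ^ (2 ^ r) + X ^ (2 ^ r + 2) : (ZMod 2)[X]) =
      (1 + X) * (1 + X ^ (2 ^ r) + X ^ (2 ^ r + 1)) := by
    rw [pow_succ, pow_add]; linear_combination (-(X ^ (2 ^ r) * X)) * h2
  have hfR : (1 + X ^ 2 + X ^ (2 ^ r + 1) + X ^ (2 ^ r + 2) : (ZMod 2)[X]) =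
      (1 + X) * (1 + X + X ^ (2 ^ r + 1)) := by
    rw [pow_succ, pow_add]; linear_combination (-X) * h2
  have hq0 : 0 < 2 ^ r := by positivity
  refine ⟨⟨⟨by positivity, ?_⟩, ?_⟩, ⟨⟨by positivity, ?_⟩, ?_⟩⟩
  · rw [hf]
    apply (coprime_one_add_X _).mul_dvd (one_add_X_dvd _)
    · have e : (1 + X ^ (4 ^ r + 2 ^ r + 1) : (ZMod 2)[X]) =
          (1 + X ^ (2 ^ r) + X ^ (2 ^ r + 1)) ^ (2 ^ r) +
            X ^ ((2 ^ r) ^ 2) * (1 + X ^ (2 ^ r) + X ^ (2 ^ r + 1)) := by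
        rw [frob_poly, frob_poly, one_pow, four_pow]
        generalize 2 ^ r = q
        have e1 : (X : (ZMod 2)[X]) ^ (q ^ 2 + q + 1) = X ^ (q ^ 2) * X ^ (q + 1) := by
          rw [← pow_add]; congr 1
        have e2 : ((X : (ZMod 2)[X]) ^ q) ^ q = X ^ (q ^ 2) := by rw [← pow_mul, sq]
        have e3 : ((X : (ZMod 2)[X]) ^ (q + 1)) ^ q = X ^ (q ^ 2) * X ^ q := by
          rw [← pow_mul, ← pow_add]; congr 1; ring
        rw [e1, e2, e3]
        linear_combination (-(X ^ (q ^ 2)) - X ^ (q ^ 2) * X ^ q) * h2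
      rw [e]
      exact dvd_add (dvd_pow_self _ hq0.ne') (dvd_mul_left _ _)
    · simp only [eval_add, eval_one, eval_pow, eval_X, one_pow]
      decide
  · rintro e ⟨he, hdvd⟩
    refine Nat.le_of_dvd he (dvd_of_roots r e fun a ha => ?_)
    obtain ⟨k, hk⟩ := hdvd
    rw [hf] at hk
    have h3 := congrArg (aeval a) hk
    simp only [map_add, map_one, map_mul, map_pow, aeval_X] at h3
    have h4 : (1 : AlgebraicClosure (ZMod 2)) + a ^ 2 ^ r + a ^ (2 ^ r + 1) = 0 := by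
      rw [add_assoc, ha]; exact CharTwo.add_self_eq_zero 1
    rw [h4, mul_zero, zero_mul] at h3
    exact (CharTwo.add_eq_zero.1 h3).symm
  · rw [hfR]
    apply (coprime_one_add_X _).mul_dvd (one_add_X_dvd _)
    · have e : (1 + X ^ (4 ^ r + 2 ^ r + 1) : (ZMod 2)[X]) =
          X * (1 + X + X ^ (2 ^ r + 1)) ^ (2 ^ r) + (1 + X + X ^ (2 ^ r + 1)) := by
        rw [frob_poly, frob_poly, one_pow, four_pow]
        generalize 2 ^ r = q
        have e1 : (X : (ZMod 2)[X]) ^ (q ^ 2 + q + 1) = X ^ (q ^ 2) * X ^ q * X := by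
          rw [← pow_add, ← pow_succ]
        have e3 : ((X : (ZMod 2)[X]) ^ (q + 1)) ^ q = X ^ (q ^ 2) * X ^ q := by
          rw [← pow_mul, ← pow_add]; congr 1; ring
        rw [e1, e3, pow_succ]
        linear_combination (-X - X * X ^ q) * h2
      rw [e]
      exact dvd_add (dvd_mul_of_dvd_right (dvd_pow_self _ hq0.ne') _) dvd_rfl
    · simp only [eval_add, eval_one, eval_pow, eval_X, one_pow]
      decide
  · rintro e ⟨he, hdvd⟩
    refine Nat.le_of_dvd he (dvd_of_roots r e fun a ha => ?_)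
    obtain ⟨k, hk⟩ := hdvd
    rw [hfR] at hk
    have ha0 : a ≠ 0 := by
      rintro rfl
      simp at ha
    have h3 := congrArg (aeval a⁻¹) hk
    simp only [map_add, map_one, map_mul, map_pow, aeval_X] at h3
    have h4 : (1 : AlgebraicClosure (ZMod 2)) + a⁻¹ + a⁻¹ ^ (2 ^ r + 1) = 0 := by
      have h5 : (1 : AlgebraicClosure (ZMod 2)) + a ^ 2 ^ r + a ^ (2 ^ r + 1) = 0 := by
        rw [add_assoc, ha]; exact CharTwo.add_self_eq_zero 1
      have h6 : (a ^ (2 ^ r + 1)) ≠ 0 := pow_ne_zero _ ha0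
      have h7 : (1 : AlgebraicClosure (ZMod 2)) + a⁻¹ + a⁻¹ ^ (2 ^ r + 1) =
          (1 + a ^ 2 ^ r + a ^ (2 ^ r + 1)) * (a ^ (2 ^ r + 1))⁻¹ := by
        rw [inv_pow]
        rw [pow_succ] at h6 ⊢
        have h8 : a ^ 2 ^ r ≠ 0 := pow_ne_zero _ ha0
        field_simp
        ring
      rw [h7, h5, zero_mul]
    rw [h4, mul_zero, zero_mul] at h3
    have h9 := (CharTwo.add_eq_zero.1 h3).symm
    rw [inv_pow] at h9
    exact inv_eq_one.1 h9

end Pool.Agent.Results.MP_9cbaed_nt.ExactOrder
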